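import Pool.Agent.H826R3.SM.WUpper
import Pool.Agent.N86.SQ.Rate
import Pool.Agent.R566.CV.Pr

/-!
# Growth rates of apolar algebras: powers and linear combinations
-/

set_option autoImplicit false

namespace Pool.Agent.Run7.h162.OS

open Pool.Agent.H826R3.SM Pool.Agent.TH671.DU Pool.Agent.N86.SQ
open MvPolynomial

variable {k : Type} [Field k]

/-- The exponents of the terms of a functional on the polynomial ring. -/
def terms {σ : Type} (Φ : MvPolynomial σ k →ₗ[k] k) : Set (σ →₀ ℕ) :=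
  {u | Φ (monomial u 1) ≠ 0}

theorem finite_apolar {σ : Type} [Finite σ] (Φ : MvPolynomial σ k →ₗ[k] k)
    (hΦ : (terms Φ).Finite) : Module.Finite k (ApolarAlg Φ) := by
  classical
  let T : Finset (σ →₀ ℕ) := hΦ.toFinset.biUnion fun u => Finset.Iic u
  have h1 : ∀ v, v ∉ T → monomial v (1 : k) ∈ annOf Φ := by
    intro v hv
    have h2 : Φ ∘ₗ LinearMap.mulLeft k (monomial v (1 : k)) = 0 := by
      refine (basisMonomials σ k).ext fun t => ?_
      rw [coe_basisMonomials, LinearMap.comp_apply, LinearMap.mulLeft_apply, LinearMap.zero_apply,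
        monomial_mul, one_mul]
      by_contra h
      apply hv
      refine Finset.mem_biUnion.2 ⟨v + t, hΦ.mem_toFinset.2 h, ?_⟩
      rw [Finset.mem_Iic]
      exact le_self_add
    intro G
    exact congrArg (fun f => f G) h2
  refine ⟨⟨T.image fun v => (Ideal.Quotient.mk (annOf Φ) (monomial v 1) : ApolarAlg Φ), ?_⟩⟩
  rw [eq_top_iff]
  rintro x -
  obtain ⟨F, rfl⟩ := Ideal.Quotient.mk_surjective x
  rw [F.as_sum, map_sum]
  refine Submodule.sum_mem _ fun v _ => ?_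
  have h3 : (Ideal.Quotient.mk (annOf Φ)) (monomial v (coeff v F)) =
      coeff v F • (Ideal.Quotient.mk (annOf Φ) (monomial v 1) : ApolarAlg Φ) := by
    have h4 : (monomial v (coeff v F)) = coeff v F • (monomial v (1 : k)) := by
      rw [smul_monomial, smul_eq_mul, mul_one]
    rw [h4]
    rfl
  rw [h3]
  refine Submodule.smul_mem _ _ ?_
  by_cases hv : v ∈ T
  · exact Submodule.subset_span (Finset.mem_coe.2 (Finset.mem_image_of_mem _ hv))
  · rw [Ideal.Quotient.eq_zero_iff_mem.2 (h1 v hv)]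
    exact Submodule.zero_mem _

theorem nontrivial_apolar {σ : Type} {Φ : MvPolynomial σ k →ₗ[k] k} (hΦ : Φ ≠ 0) :
    Nontrivial (ApolarAlg Φ) := by
  rw [Ideal.Quotient.nontrivial_iff, Ne, Ideal.eq_top_iff_one]
  intro h
  apply hΦ
  apply LinearMap.ext
  intro G
  have := h G
  rwa [one_mul] at this

theorem annOf_fpow {σ : Type} (Φ : MvPolynomial σ k →ₗ[k] k) [Module.Finite k (ApolarAlg Φ)]
    (n : ℕ) : annOf (fpow Φ n) = RingHom.ker (theta Φ n) := by
  obtain ⟨φ, hφ⟩ := exists_phi Φ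
  apply le_antisymm
  · intro F hF
    exact theta_of_mem Φ n hF
  · intro F hF G
    rw [← tpow_theta Φ φ hφ, map_mul, (RingHom.mem_ker.1 hF : theta Φ n F = 0), zero_mul, map_zero]

/-- The apolar algebra of a power in disjoint variables. -/
noncomputable def fpowEquiv {σ : Type} (Φ : MvPolynomial σ k →ₗ[k] k)
    [Module.Finite k (ApolarAlg Φ)] (n : ℕ) :
    ApolarAlg (fpow Φ n) ≃ₐ[k] Pow k (ApolarAlg Φ) n :=
  (Ideal.quotientEquivAlgOfEq k (annOf_fpow Φ n)).trans
    (Ideal.quotientKerAlgEquivOfSurjective (theta_surjective Φ n))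

theorem finite_fpow {σ : Type} (Φ : MvPolynomial σ k →ₗ[k] k) [Module.Finite k (ApolarAlg Φ)]
    (n : ℕ) : Module.Finite k (ApolarAlg (fpow Φ n)) :=
  Module.Finite.equiv (fpowEquiv Φ n).symm.toLinearEquiv

variable [IsAlgClosed k]

theorem rate_fpow {σ : Type} (Φ : MvPolynomial σ k →ₗ[k] k) [Module.Finite k (ApolarAlg Φ)]
    (hΦ : Φ ≠ 0) (n : ℕ) : rate k (ApolarAlg (fpow Φ n)) = rate k (ApolarAlg Φ) ^ n := by
  have h1 := nontrivial_apolar hΦ
  have h2 := finite_fpow Φ n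
  have h3 : Nontrivial (Pow k (ApolarAlg Φ) n) := nontrivial_pow (ApolarAlg Φ) n
  have h4 : Nontrivial (ApolarAlg (fpow Φ n)) := (fpowEquiv Φ n).toRingEquiv.toEquiv.nontrivial
  rw [Pool.Agent.N86.SQ.rate_congr (fpowEquiv Φ n), rate_pow']

/-- **Subadditivity.** -/
theorem rate_le_of_mem_span {σ : Type} (X : Finset (MvPolynomial σ k →ₗ[k] k)) (x : ℝ)
    (hx : 0 ≤ x) (hX : ∀ Ψ ∈ X, Ψ ≠ 0 → Module.Finite k (ApolarAlg Ψ) ∧ rate k (ApolarAlg Ψ) ≤ x)
    (Φ : MvPolynomial σ k →ₗ[k] k) (hΦ : Φ ≠ 0)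
    (h : Φ ∈ Submodule.span k (X : Set (MvPolynomial σ k →ₗ[k] k))) :
    rate k (ApolarAlg Φ) ≤ X.card * x := by
  classical
  set Y := X.erase 0 with hY
  have hspan : Φ ∈ Submodule.span k (Y : Set (MvPolynomial σ k →ₗ[k] k)) := by
    rw [hY, Finset.coe_erase, Submodule.span_sdiff_singleton_zero]
    exact h
  have hcard : 0 < Y.card := by
    rw [Finset.card_pos]
    by_contra hcon
    rw [Finset.not_nonempty_iff_eq_empty] at hcon
    rw [hcon, Finset.coe_empty, Submodule.span_empty, Submodule.mem_bot] at hspan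
    exact hΦ hspan
  obtain ⟨r, hr⟩ : ∃ r, Y.card = r + 1 := ⟨Y.card - 1, by omega⟩
  let e : Fin (r + 1) ≃ Y := (Finset.equivFinOfCardEq hr).symm
  let Ψ : Fin (r + 1) → (MvPolynomial σ k →ₗ[k] k) := fun i => (e i).1
  have hΨ0 : ∀ i, Ψ i ≠ 0 := fun i => (Finset.mem_erase.1 (e i).2).1
  have hΨX : ∀ i, Ψ i ∈ X := fun i => (Finset.mem_erase.1 (e i).2).2
  have hfin : ∀ i, Module.Finite k (ApolarAlg (Ψ i)) := fun i => (hX _ (hΨX i) (hΨ0 i)).1
  have hnt : ∀ i, Nontrivial (ApolarAlg (Ψ i)) := fun i => nontrivial_apolar (hΨ0 i)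
  have hntΦ := nontrivial_apolar hΦ
  let G : MvPolynomial σ k →ₐ[k] (∀ i, ApolarAlg (Ψ i)) :=
    AlgHom.pi fun i => Ideal.Quotient.mkₐ k (annOf (Ψ i))
  have hker : ∀ M, G M = 0 → M ∈ annOf Φ := by
    intro M hM P
    have h1 : ∀ i, M ∈ annOf (Ψ i) := fun i => Ideal.Quotient.eq_zero_iff_mem.1 (congrFun hM i)
    have h2 : ∀ Θ ∈ Submodule.span k (Y : Set (MvPolynomial σ k →ₗ[k] k)), Θ (M * P) = 0 := by
      intro Θ hΘ
      induction hΘ using Submodule.span_induction with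
      | mem Θ hΘ =>
        have h3 := h1 (e.symm ⟨Θ, hΘ⟩) P
        have h4 : Ψ (e.symm ⟨Θ, hΘ⟩) = Θ := by
          change (e (e.symm ⟨Θ, hΘ⟩)).1 = Θ
          rw [Equiv.apply_symm_apply]
        rwa [h4] at h3
      | zero => rfl
      | add a b _ _ ha hb => rw [LinearMap.add_apply, ha, hb, add_zero]
      | smul c a _ ha => rw [LinearMap.smul_apply, ha, smul_zero]
    exact h2 Φ hspan
  have hsub : IsSubquotient k (ApolarAlg Φ) (∀ i, ApolarAlg (Ψ i)) := by
    refine IsSubquotient.mk' (Ideal.kerLiftAlg G) (Ideal.kerLiftAlg_injective G)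
      (Ideal.Quotient.liftₐ (RingHom.ker G) (Ideal.Quotient.mkₐ k (annOf Φ)) fun M hM =>
        Ideal.Quotient.eq_zero_iff_mem.2 (hker M hM)) ?_
    intro x
    obtain ⟨M, rfl⟩ := Ideal.Quotient.mk_surjective x
    exact ⟨Ideal.Quotient.mk _ M, rfl⟩
  have hfinΦ : Module.Finite k (ApolarAlg Φ) := by
    obtain ⟨S, f, hf⟩ := hsub
    have : Module.Finite k S := Module.Finite.of_injective S.val.toLinearMap Subtype.val_injective
    exact Module.Finite.of_surjective f.toLinearMap hf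
  refine (Pool.Agent.N86.SQ.rate_le hsub).trans ?_
  refine (Pool.Agent.R566.CV.rate_pi r fun i => ApolarAlg (Ψ i)).trans ?_
  refine (Finset.sum_le_card_nsmul _ _ x fun i _ => (hX _ (hΨX i) (hΨ0 i)).2).trans ?_
  rw [Finset.card_univ, Fintype.card_fin, nsmul_eq_mul, ← hr]
  refine mul_le_mul_of_nonneg_right ?_ hx
  exact_mod_cast Finset.card_le_card (Finset.erase_subset _ _)

end Pool.Agent.Run7.h162.OS
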