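import Pool.Agent.Run7.h162.OS.Gen
import Pool.Agent.N86.SQ.BaseCh

/-!
# Zero-one functionals and extensions of the ground field
-/

set_option autoImplicit false
set_option linter.unusedSectionVars false

namespace Pool.Agent.Run7.h162.OS

open Pool.Agent.H826R3.SM Pool.Agent.TH671.DU Pool.Agent.N86.SQ
open MvPolynomial
open scoped TensorProduct

/-- The functional with the value `1` at the monomial with the exponent `u` and `0` at all the other
monomials. -/
noncomputable def dualMon (k : Type) {σ : Type} [Field k] (u : σ →₀ ℕ) :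
    MvPolynomial σ k →ₗ[k] k :=
  functional (basisMonomials σ k) (by classical exact Pi.single u 1)

theorem functional_monomial {k σ : Type} [Field k] (f : (σ →₀ ℕ) → k) (t : σ →₀ ℕ) :
    functional (basisMonomials σ k) f (monomial t 1) = f t := by
  have : (monomial t (1 : k)) = basisMonomials σ k t := by
    rw [coe_basisMonomials]
  unfold functional
  rw [this, Module.Basis.constr_basis]

theorem dualMon_monomial {k σ : Type} [Field k] [DecidableEq (σ →₀ ℕ)] (u t : σ →₀ ℕ) :
    dualMon k u (monomial t 1) = if t = u then 1 else 0 := by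
  unfold dualMon
  rw [functional_monomial]
  by_cases h : t = u
  · rw [if_pos h, h]
    simp
  · rw [if_neg h]
    simp [h]

theorem terms_dualMon {k σ : Type} [Field k] (u : σ →₀ ℕ) :
    terms (dualMon k u) = {u} := by
  classical
  ext t
  change dualMon k u (monomial t 1) ≠ 0 ↔ t = u
  rw [dualMon_monomial]
  by_cases h : t = u <;> simp [h]

open Classical in
theorem orbitSum_dualMon {k σ ι : Type} [Field k] [Fintype ι] (e : ι → (σ →₀ ℕ))
    (he : Function.Injective e) {n : ℕ} (w : Fin n → ι) (t : Fin n × σ →₀ ℕ) :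
    orbitSum (fun i => dualMon k (e i)) w (monomial t 1) =
      if ∃ π : Equiv.Perm (Fin n), ∀ l, part t l = e (w (π l)) then 1 else 0 := by
  unfold orbitSum
  rw [LinearMap.sum_apply]
  have h1 : ∀ f : Fin n → ι, tens (fun l => dualMon k (e (f l))) (monomial t 1) =
      if ∀ l, part t l = e (f l) then 1 else 0 := by
    intro f
    rw [tens_monomial, Finset.prod_congr rfl fun l _ => dualMon_monomial (e (f l)) (part t l)]
    by_cases h : ∀ l, part t l = e (f l)
    · rw [if_pos h]
      exact Finset.prod_eq_one fun l _ => if_pos (h l)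
    · rw [if_neg h]
      push Not at h
      obtain ⟨l, hl⟩ := h
      exact Finset.prod_eq_zero (Finset.mem_univ l) (if_neg hl)
  rw [Finset.sum_congr rfl fun f _ => h1 f]
  by_cases h : ∃ π : Equiv.Perm (Fin n), ∀ l, part t l = e (w (π l))
  · rw [if_pos h]
    obtain ⟨π, hπ⟩ := h
    rw [Finset.sum_eq_single (w ∘ π)]
    · exact if_pos hπ
    · intro f _ hf
      refine if_neg fun hcon => hf ?_
      funext l
      exact he ((hcon l).symm.trans (hπ l))
    · intro hnot
      exact absurd (Finset.mem_filter.2 ⟨Finset.mem_univ _, π, rfl⟩) hnot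
  · rw [if_neg h]
    refine Finset.sum_eq_zero fun f hf => if_neg fun hcon => h ?_
    obtain ⟨π, rfl⟩ := (Finset.mem_filter.1 hf).2
    exact ⟨π, hcon⟩

/-- The functionals with terms in a finite set of exponents. -/
theorem terms_subset_iff {k σ : Type} [Field k] (E : Finset (σ →₀ ℕ))
    (Φ : MvPolynomial σ k →ₗ[k] k) :
    terms Φ ⊆ (E : Set (σ →₀ ℕ)) ↔ ∃ c : E → k, Φ = lin (fun u : E => dualMon k u.1) c := by
  classical
  constructor
  · intro h
    refine ⟨fun u => Φ (monomial u.1 1), fnl_ext fun t => ?_⟩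
    unfold lin
    rw [LinearMap.sum_apply]
    by_cases ht : t ∈ E
    · rw [Finset.sum_eq_single (⟨t, ht⟩ : E)]
      · rw [LinearMap.smul_apply, dualMon_monomial, if_pos rfl, smul_eq_mul, mul_one]
      · intro u _ hu
        rw [LinearMap.smul_apply, dualMon_monomial, if_neg fun h' => hu (Subtype.ext h'.symm),
          smul_zero]
      · intro h'
        exact absurd (Finset.mem_univ _) h'
    · have h1 : Φ (monomial t 1) = 0 := by
        by_contra h'
        exact ht (h h')
      rw [h1]
      refine (Finset.sum_eq_zero fun u _ => ?_).symm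
      rw [LinearMap.smul_apply, dualMon_monomial, if_neg, smul_zero]
      rintro rfl
      exact ht u.2
  · rintro ⟨c, rfl⟩ t ht
    by_contra h'
    apply ht
    unfold lin
    rw [LinearMap.sum_apply]
    refine Finset.sum_eq_zero fun u _ => ?_
    rw [LinearMap.smul_apply, dualMon_monomial, if_neg, smul_zero]
    rintro rfl
    exact h' u.2

section ext

variable {k K σ : Type} [Field k] [Field K] [Algebra k K]

/-- The functional over an extension field with the same values on the monomials. -/
noncomputable def extF (K : Type) [Field K] [Algebra k K] (Φ : MvPolynomial σ k →ₗ[k] k) :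
    MvPolynomial σ K →ₗ[K] K :=
  functional (basisMonomials σ K) fun t => algebraMap k K (Φ (monomial t 1))

theorem extF_monomial (Φ : MvPolynomial σ k →ₗ[k] k) (t : σ →₀ ℕ) :
    extF K Φ (monomial t 1) = algebraMap k K (Φ (monomial t 1)) := by
  unfold extF
  rw [functional_monomial]

theorem extF_map (Φ : MvPolynomial σ k →ₗ[k] k) (F : MvPolynomial σ k) :
    extF K Φ (map (algebraMap k K) F) = algebraMap k K (Φ F) := by
  conv_lhs => rw [F.as_sum]
  conv_rhs => rw [F.as_sum]
  rw [map_sum, map_sum, map_sum, map_sum]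
  refine Finset.sum_congr rfl fun t _ => ?_
  rw [map_monomial]
  have h1 : (monomial t (algebraMap k K (coeff t F))) =
      algebraMap k K (coeff t F) • (monomial t (1 : K)) := by
    rw [smul_monomial, smul_eq_mul, mul_one]
  have h2 : (monomial t (coeff t F)) = coeff t F • (monomial t (1 : k)) := by
    rw [smul_monomial, smul_eq_mul, mul_one]
  rw [h1, h2, map_smul, map_smul, extF_monomial, smul_eq_mul, smul_eq_mul, map_mul]

theorem map_mem_annOf (Φ : MvPolynomial σ k →ₗ[k] k) {F : MvPolynomial σ k} (hF : F ∈ annOf Φ) :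
    map (algebraMap k K) F ∈ annOf (extF K Φ) := by
  have h1 : extF K Φ ∘ₗ LinearMap.mulLeft K (map (algebraMap k K) F) = 0 := by
    refine fnl_ext fun t => ?_
    rw [LinearMap.comp_apply, LinearMap.mulLeft_apply, LinearMap.zero_apply]
    have h2 : map (algebraMap k K) F * monomial t (1 : K) =
        map (algebraMap k K) (F * monomial t (1 : k)) := by
      rw [map_mul, map_monomial, map_one (algebraMap k K)]
    rw [h2, extF_map, hF, map_zero]
  intro G
  exact congrArg (fun f => f G) h1

theorem exists_surj (Φ : MvPolynomial σ k →ₗ[k] k) :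
    ∃ f : K ⊗[k] ApolarAlg Φ →ₐ[K] ApolarAlg (extF K Φ), Function.Surjective f := by
  let u : ApolarAlg Φ →+* ApolarAlg (extF K Φ) :=
    Ideal.Quotient.lift (annOf Φ) ((Ideal.Quotient.mk (annOf (extF K Φ))).comp
      (map (algebraMap k K))) fun F hF => Ideal.Quotient.eq_zero_iff_mem.2 (map_mem_annOf Φ hF)
  have hu : ∀ F, u (Ideal.Quotient.mk _ F) =
      Ideal.Quotient.mk (annOf (extF K Φ)) (map (algebraMap k K) F) := fun F => rfl
  obtain ⟨χ, hχ⟩ := exists_lift (R := k) (S := K) u (fun r => by
    change u (Ideal.Quotient.mk _ (C r)) = Ideal.Quotient.mk _ (C (algebraMap k K r))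
    rw [hu, map_C])
  refine ⟨χ, fun y => ?_⟩
  obtain ⟨P, rfl⟩ := Ideal.Quotient.mk_surjective y
  have h1 : χ.comp (aeval fun v => (1 : K) ⊗ₜ[k] (Ideal.Quotient.mk (annOf Φ) (X v))) =
      Ideal.Quotient.mkₐ K (annOf (extF K Φ)) := by
    refine MvPolynomial.algHom_ext fun v => ?_
    rw [AlgHom.comp_apply, aeval_X, hχ, hu, map_X]
    rfl
  exact ⟨aeval (fun v => (1 : K) ⊗ₜ[k] (Ideal.Quotient.mk (annOf Φ) (X v))) P,
    congrArg (fun f => f P) h1⟩

theorem terms_extF (Φ : MvPolynomial σ k →ₗ[k] k) : terms (extF K Φ) = terms Φ := by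
  ext t
  change extF K Φ (monomial t 1) ≠ 0 ↔ Φ (monomial t 1) ≠ 0
  rw [extF_monomial, Ne, Ne, map_eq_zero]

theorem extF_lin {ι : Type} [Fintype ι] (Ψ : ι → (MvPolynomial σ k →ₗ[k] k)) (c : ι → k) :
    lin (fun i => extF K (Ψ i)) (fun i => algebraMap k K (c i)) = extF K (lin Ψ c) := by
  refine fnl_ext fun t => ?_
  rw [extF_monomial]
  unfold lin
  rw [LinearMap.sum_apply, LinearMap.sum_apply, map_sum]
  refine Finset.sum_congr rfl fun i _ => ?_
  rw [LinearMap.smul_apply, LinearMap.smul_apply, extF_monomial, smul_eq_mul, smul_eq_mul, map_mul]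

theorem extF_eq_zero {Φ : MvPolynomial σ k →ₗ[k] k} : extF K Φ = 0 ↔ Φ = 0 := by
  constructor
  · intro h
    refine fnl_ext fun t => ?_
    have h1 := congrArg (fun f => f (monomial t (1 : K))) h
    simp only [extF_monomial, LinearMap.zero_apply] at h1
    rw [map_eq_zero] at h1
    rw [h1, LinearMap.zero_apply]
  · rintro rfl
    refine fnl_ext fun t => ?_
    rw [extF_monomial, LinearMap.zero_apply, map_zero, LinearMap.zero_apply]

theorem rate_extF_le [IsAlgClosed k] [IsAlgClosed K] [Finite σ] {Φ : MvPolynomial σ k →ₗ[k] k}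
    (hΦ : Φ ≠ 0) (hfin : (terms Φ).Finite) :
    rate K (ApolarAlg (extF K Φ)) ≤ rate k (ApolarAlg Φ) := by
  have := finite_apolar _ hfin
  have := nontrivial_apolar hΦ
  have h1 : Module.Finite K (ApolarAlg (extF K Φ)) := finite_apolar _ (by
    rw [terms_extF]
    exact hfin)
  have h2 : Nontrivial (ApolarAlg (extF K Φ)) := nontrivial_apolar fun h => hΦ (extF_eq_zero.1 h)
  have h3 := nontrivial_baseChange k K (ApolarAlg Φ)
  obtain ⟨f, hf⟩ := exists_surj (K := K) Φ
  exact (Pool.Agent.N86.SQ.rate_le (IsSubquotient.of_surjective f hf)).trans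
    (rate_baseChange_le k K (ApolarAlg Φ))

theorem zdense_image {ι : Type} (k K : Type) [Field k] [Infinite k] [Field K] [Algebra k K] :
    ZDense {c : ι → K | ∃ c' : ι → k, c = fun i => algebraMap k K (c' i)} := by
  intro Q hQ
  refine MvPolynomial.funext_set (fun _ : ι => Set.range (algebraMap k K))
    (fun _ => Set.infinite_range_of_injective (algebraMap k K).injective) fun x hx => ?_
  rw [map_zero]
  choose c' hc' using fun i => hx i (Set.mem_univ i)
  exact hQ x ⟨c', funext fun i => (hc' i).symm⟩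

/-- **Extension of the ground field.** -/
theorem rate_ext [IsAlgClosed k] [IsAlgClosed K] [Finite σ] {ι : Type} [Fintype ι]
    (Ψ : ι → (MvPolynomial σ k →ₗ[k] k)) (hΨ : ∀ i, (terms (Ψ i)).Finite) {ρ : ℝ} (hρ : 0 < ρ)
    (h : ∀ c : ι → k, lin Ψ c ≠ 0 → rate k (ApolarAlg (lin Ψ c)) ≤ ρ) (c : ι → K)
    (hc : lin (fun i => extF K (Ψ i)) c ≠ 0) :
    rate K (ApolarAlg (lin (fun i => extF K (Ψ i)) c)) ≤ ρ := by
  classical
  have : Infinite k := IsAlgClosed.instInfinite
  refine rate_closure (fun i => extF K (Ψ i)) (fun i => by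
    rw [terms_extF]
    exact hΨ i) hρ {c : ι → K | ∃ c' : ι → k, c = fun i => algebraMap k K (c' i)} c
    (fun Q hQ => by rw [zdense_image k K Q hQ, map_zero]) ?_ hc
  rintro _ ⟨c', rfl⟩ hc'
  rw [extF_lin] at hc' ⊢
  have h0 : lin Ψ c' ≠ 0 := fun h0 => hc' (extF_eq_zero.2 h0)
  exact (rate_extF_le h0 (terms_lin Ψ hΨ c')).trans (h c' h0)

end ext

end Pool.Agent.Run7.h162.OS
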