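import Pool.Agent.Run7.h162.OS.Main

/-!
# The members of largest degree of a linear system, and Q1
-/

set_option autoImplicit false
set_option linter.unusedSectionVars false

namespace Pool.Agent.Run7.h162.OS

open Pool.Agent.H826R3.SM Pool.Agent.TH671.DU Pool.Agent.N86.SQ
open MvPolynomial

/-- Zariski dense sets of points: the polynomials which vanish on them are `0`. -/
def ZDense {k ι : Type} [Field k] (Z : Set (ι → k)) : Prop :=
  ∀ Q : MvPolynomial ι k, (∀ c ∈ Z, eval c Q = 0) → Q = 0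

theorem zdense_univ {k ι : Type} [Field k] [Infinite k] : ZDense (Set.univ : Set (ι → k)) :=
  fun Q hQ => MvPolynomial.funext fun c => by rw [hQ c trivial, map_zero]

section

variable {k : Type} [Field k] {σ ι : Type} [Fintype ι] [Finite σ]
  (Ψ : ι → (MvPolynomial σ k →ₗ[k] k)) (hΨ : ∀ i, (terms (Ψ i)).Finite)

include hΨ

theorem exists_det (c₁ : ι → k) (h₁ : lin Ψ c₁ ≠ 0) :
    ∃ R : MvPolynomial ι k, R ≠ 0 ∧ ∀ c, eval c R ≠ 0 → lin Ψ c ≠ 0 ∧
      Module.finrank k (ApolarAlg (lin Ψ c₁)) ≤ Module.finrank k (ApolarAlg (lin Ψ c)) := by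
  classical
  have hfin₁ := finite_apolar _ (terms_lin Ψ hΨ c₁)
  have hnt₁ := nontrivial_apolar h₁
  obtain ⟨φ, hφ⟩ := exists_phi (lin Ψ c₁)
  have hnd : ∀ x, (∀ y, φ (x * y) = 0) → x = 0 := by
    intro x hx
    obtain ⟨P, rfl⟩ := Ideal.Quotient.mk_surjective x
    rw [Ideal.Quotient.eq_zero_iff_mem]
    intro Q
    rw [← hφ, map_mul]
    exact hx _
  set D := Module.finrank k (ApolarAlg (lin Ψ c₁)) with hD
  have hD0 : 0 < D := Module.finrank_pos
  let b := Module.finBasis k (ApolarAlg (lin Ψ c₁))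
  choose b' hb' using fun i => exists_dual_elt φ hnd (b.coord i)
  choose F hF using fun i => Ideal.Quotient.mk_surjective (b i)
  choose G hG using fun i => Ideal.Quotient.mk_surjective (b' i)
  have hFG : ∀ i j, lin Ψ c₁ (F i * G j) = if i = j then 1 else 0 := by
    intro i j
    rw [← hφ, map_mul, hF, hG, hb', Module.Basis.coord_apply, b.repr_self, Finsupp.single_apply]
  let M : Matrix (Fin D) (Fin D) (MvPolynomial ι k) :=
    Matrix.of fun i j => ∑ l, C (Ψ l (F i * G j)) * X l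
  have hM : ∀ c, eval c M.det = (Matrix.of fun i j => lin Ψ c (F i * G j)).det := by
    intro c
    rw [RingHom.map_det]
    congr 1
    ext i j
    change eval c (∑ l, C (Ψ l (F i * G j)) * X l) = (∑ l, c l • Ψ l) (F i * G j)
    rw [map_sum, LinearMap.sum_apply]
    refine Finset.sum_congr rfl fun l _ => ?_
    rw [map_mul, eval_C, eval_X, LinearMap.smul_apply, smul_eq_mul, mul_comm]
  refine ⟨M.det, ?_, ?_⟩
  · intro h0
    have h2 := hM c₁
    rw [h0, map_zero] at h2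
    have h3 : (Matrix.of fun i j => lin Ψ c₁ (F i * G j)) = (1 : Matrix (Fin D) (Fin D) k) := by
      ext i j
      rw [Matrix.of_apply, hFG, Matrix.one_apply]
    rw [h3, Matrix.det_one] at h2
    exact zero_ne_one h2
  · intro c hc
    rw [hM c] at hc
    have hfin := finite_apolar _ (terms_lin Ψ hΨ c)
    constructor
    · intro h0
      apply hc
      have h3 : (Matrix.of fun i j => lin Ψ c (F i * G j)) = (0 : Matrix (Fin D) (Fin D) k) := by
        ext i j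
        rw [Matrix.of_apply, h0]
        rfl
      rw [h3]
      have : Nonempty (Fin D) := ⟨⟨0, hD0⟩⟩
      exact Matrix.det_zero
    · have hli : LinearIndependent k
          (fun i : Fin D => (Ideal.Quotient.mk (annOf (lin Ψ c)) (F i) : ApolarAlg (lin Ψ c))) := by
        rw [Fintype.linearIndependent_iff]
        intro α hα
        have h4 : (∑ i, α i • F i) ∈ annOf (lin Ψ c) := by
          rw [← Ideal.Quotient.eq_zero_iff_mem, ← hα, map_sum]
          rfl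
        have h5 : Matrix.vecMul α (Matrix.of fun i j => lin Ψ c (F i * G j)) = 0 := by
          funext j
          have h6 := h4 (G j)
          rw [Finset.sum_mul, map_sum] at h6
          rw [Pi.zero_apply, ← h6]
          change ∑ i, α i * lin Ψ c (F i * G j) = _
          refine Finset.sum_congr rfl fun i _ => ?_
          rw [smul_mul_assoc, map_smul, smul_eq_mul]
        have h7 := Matrix.eq_zero_of_vecMul_eq_zero hc h5
        intro i
        exact congrFun h7 i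
      have h8 := LinearIndependent.fintype_card_le_finrank hli
      rwa [Fintype.card_fin] at h8

theorem zdense_max [Infinite k] {D : ℕ} (hD : IsGreatest {d : ℕ | ∃ c : ι → k, lin Ψ c ≠ 0 ∧
    Module.finrank k (ApolarAlg (lin Ψ c)) = d} D) :
    ZDense {c : ι → k | lin Ψ c ≠ 0 ∧ Module.finrank k (ApolarAlg (lin Ψ c)) = D} := by
  obtain ⟨⟨c₁, h₁, hc₁⟩, hmax⟩ := hD
  obtain ⟨R, hR, hR'⟩ := exists_det Ψ hΨ c₁ h₁
  intro Q hQ
  have h1 : Q * R = 0 := by
    refine zdense_univ (Q * R) fun c _ => ?_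
    rw [map_mul]
    by_cases h : eval c R = 0
    · rw [h, mul_zero]
    · obtain ⟨h2, h3⟩ := hR' c h
      rw [hQ c ⟨h2, le_antisymm (hmax ⟨c, h2, rfl⟩) (by rw [← hc₁]; exact h3)⟩, zero_mul]
  exact (mul_eq_zero.1 h1).resolve_right hR

end

section

variable {k : Type} [Field k] [IsAlgClosed k] {σ ι : Type} [Fintype ι] [Finite σ]
  (Ψ : ι → (MvPolynomial σ k →ₗ[k] k)) (hΨ : ∀ i, (terms (Ψ i)).Finite)

include hΨ

theorem level {n : ℕ} (hn : 1 ≤ n) {x : ℝ} (hx : 0 ≤ x) :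
    ((∀ w : Fin n → ι, orbitSum Ψ w ≠ 0 → rate k (ApolarAlg (orbitSum Ψ w)) ≤ x) →
      ∀ c : ι → k, lin Ψ c ≠ 0 →
        rate k (ApolarAlg (lin Ψ c)) ^ n ≤ (n + 1) ^ Fintype.card ι * x) ∧
    ((∀ c : ι → k, lin Ψ c ≠ 0 → rate k (ApolarAlg (lin Ψ c)) ^ n ≤ x) →
      ∀ w : Fin n → ι, orbitSum Ψ w ≠ 0 →
        rate k (ApolarAlg (orbitSum Ψ w)) ≤ (n + 1) ^ Fintype.card ι * x) := by
  classical
  have : Infinite k := IsAlgClosed.instInfinite
  exact ⟨fun h c hc => rate_lin_le Ψ hΨ hx h c hc,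
    fun h w hw => rate_orbitSum_le Ψ hΨ hn hx Set.univ zdense_univ (fun c _ => h c) w hw⟩

theorem tfae_rate {ρ : ℝ} (hρ : 0 < ρ) : List.TFAE [
    ∀ c : ι → k, lin Ψ c ≠ 0 → rate k (ApolarAlg (lin Ψ c)) ≤ ρ,
    ∃ Z : Set (ι → k), ZDense Z ∧ ∀ c ∈ Z, lin Ψ c ≠ 0 → rate k (ApolarAlg (lin Ψ c)) ≤ ρ,
    ∀ n : ℕ, 1 ≤ n → ∀ w : Fin n → ι, orbitSum Ψ w ≠ 0 →
      rate k (ApolarAlg (orbitSum Ψ w)) ≤ (n + 1) ^ Fintype.card ι * ρ ^ n,
    ∀ η : ℝ, 0 < η → ∃ C : ℝ, ∀ n : ℕ, 1 ≤ n → ∀ w : Fin n → ι, orbitSum Ψ w ≠ 0 →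
      rate k (ApolarAlg (orbitSum Ψ w)) ≤ C * (ρ + η) ^ n] := by
  classical
  have : Infinite k := IsAlgClosed.instInfinite
  have h1r : ∀ c : ι → k, lin Ψ c ≠ 0 → 1 ≤ rate k (ApolarAlg (lin Ψ c)) := by
    intro c hc
    have := finite_apolar _ (terms_lin Ψ hΨ c)
    have := nontrivial_apolar hc
    exact one_le_rate (k := k) (ApolarAlg (lin Ψ c))
  tfae_have 1 → 2 := fun h => ⟨Set.univ, zdense_univ, fun c _ => h c⟩
  tfae_have 2 → 3 := by
    rintro ⟨Z, hZ, h⟩ n hn w hw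
    refine rate_orbitSum_le Ψ hΨ hn (pow_nonneg hρ.le n) Z hZ (fun c hc hc0 => ?_) w hw
    exact pow_le_pow_left₀ (by linarith [h1r c hc0]) (h c hc hc0) n
  tfae_have 3 → 4 := by
    intro h η hη
    -- the polynomial factor is bounded by a constant times `((ρ + η) / ρ) ^ n`
    have h2 : 1 < (ρ + η) / ρ := by
      rw [one_lt_div hρ]
      linarith
    have h3 := tendsto_pow_const_div_const_pow_of_one_lt (Fintype.card ι) h2
    have h4 : Filter.Tendsto (fun n : ℕ => (2 : ℝ) ^ Fintype.card ι *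
        ((n : ℝ) ^ Fintype.card ι / ((ρ + η) / ρ) ^ n)) Filter.atTop (nhds 0) := by
      simpa using h3.const_mul ((2 : ℝ) ^ Fintype.card ι)
    obtain ⟨C, hC⟩ := h4.bddAbove_range
    refine ⟨C, fun n hn w hw => (h n hn w hw).trans ?_⟩
    have h5 : (2 : ℝ) ^ Fintype.card ι * ((n : ℝ) ^ Fintype.card ι / ((ρ + η) / ρ) ^ n) ≤ C :=
      hC ⟨n, rfl⟩
    have hn' : (1 : ℝ) ≤ n := by exact_mod_cast hn
    have h6 : ((n : ℝ) + 1) ^ Fintype.card ι ≤ (2 : ℝ) ^ Fintype.card ι * (n : ℝ) ^ Fintype.card ι := by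
      rw [← mul_pow]
      exact pow_le_pow_left₀ (by positivity) (by linarith) _
    have h7 : 0 < ((ρ + η) / ρ) ^ n := by positivity
    have h8 : (2 : ℝ) ^ Fintype.card ι * (n : ℝ) ^ Fintype.card ι ≤ C * ((ρ + η) / ρ) ^ n := by
      rw [← mul_div_assoc, div_le_iff₀ h7] at h5
      exact h5
    calc ((n : ℝ) + 1) ^ Fintype.card ι * ρ ^ n ≤ (C * ((ρ + η) / ρ) ^ n) * ρ ^ n :=
          mul_le_mul_of_nonneg_right (h6.trans h8) (by positivity)
      _ = C * (ρ + η) ^ n := by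
          rw [mul_assoc, ← mul_pow, div_mul_cancel₀ _ hρ.ne']
  tfae_have 4 → 1 := by
    intro h c hc
    refine le_of_forall_pos_le_add fun η hη => ?_
    obtain ⟨C, hC⟩ := h η hη
    have hCx : ∀ n : ℕ, 1 ≤ n → rate k (ApolarAlg (lin Ψ c)) ^ n ≤
        (n + 1) ^ Fintype.card ι * (|C| * (ρ + η) ^ n) := by
      intro n hn
      refine rate_lin_le Ψ hΨ (by positivity) (fun w hw => (hC n hn w hw).trans ?_) c hc
      exact mul_le_mul_of_nonneg_right (le_abs_self C) (by positivity)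
    obtain ⟨B, hB⟩ := exists_nat_gt |C|
    refine Pool.Agent.TH711.AU.le_of_pow_le_poly (Fintype.card ι + 1) (by positivity) fun N₀ =>
      ⟨max N₀ (B + 1), le_max_left _ _, ?_⟩
    set N := max N₀ (B + 1) with hN
    have hN1 : B + 1 ≤ N := le_max_right _ _
    refine (hCx N (by omega)).trans ?_
    have h9 : |C| ≤ (N : ℝ) + 1 := by
      have : (B : ℝ) ≤ N := by exact_mod_cast (by omega : B ≤ N)
      linarith
    calc ((N : ℝ) + 1) ^ Fintype.card ι * (|C| * (ρ + η) ^ N) ≤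
        ((N : ℝ) + 1) ^ Fintype.card ι * (((N : ℝ) + 1) * (ρ + η) ^ N) := by gcongr
      _ = ((N : ℝ) + 1) ^ (Fintype.card ι + 1) * (ρ + η) ^ N := by ring
  tfae_finish

theorem tfae_qOne {D : ℕ} (hD : IsGreatest {d : ℕ | ∃ c : ι → k, lin Ψ c ≠ 0 ∧
    Module.finrank k (ApolarAlg (lin Ψ c)) = d} D) : List.TFAE [
    ∀ c : ι → k, lin Ψ c ≠ 0 → Module.finrank k (ApolarAlg (lin Ψ c)) = D →
      QOne k (ApolarAlg (lin Ψ c)),
    ∃ Z : Set (ι → k), ZDense Z ∧ ∀ c ∈ Z, lin Ψ c ≠ 0 → QOne k (ApolarAlg (lin Ψ c)),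
    ∀ c : ι → k, lin Ψ c ≠ 0 → rate k (ApolarAlg (lin Ψ c)) ≤ D,
    ∀ n : ℕ, 1 ≤ n → ∀ w : Fin n → ι, orbitSum Ψ w ≠ 0 →
      rate k (ApolarAlg (orbitSum Ψ w)) ≤ (n + 1) ^ Fintype.card ι * (D : ℝ) ^ n,
    ∀ η : ℝ, 0 < η → ∃ C : ℝ, ∀ n : ℕ, 1 ≤ n → ∀ w : Fin n → ι, orbitSum Ψ w ≠ 0 →
      rate k (ApolarAlg (orbitSum Ψ w)) ≤ C * (D + η) ^ n] := by
  classical
  have : Infinite k := IsAlgClosed.instInfinite
  have hdense := zdense_max Ψ hΨ hD
  obtain ⟨⟨c₁, h₁, hc₁⟩, hmax⟩ := hD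
  have hD0 : 0 < D := by
    have := finite_apolar _ (terms_lin Ψ hΨ c₁)
    have := nontrivial_apolar h₁
    rw [← hc₁]
    exact Module.finrank_pos
  have hD0' : (0 : ℝ) < D := by exact_mod_cast hD0
  have T := tfae_rate Ψ hΨ hD0'
  have hq : ∀ c : ι → k, lin Ψ c ≠ 0 → QOne k (ApolarAlg (lin Ψ c)) →
      rate k (ApolarAlg (lin Ψ c)) ≤ D := by
    intro c hc h
    have := finite_apolar _ (terms_lin Ψ hΨ c)
    have := nontrivial_apolar hc
    rw [(qOne_iff_rate _).1 h]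
    exact_mod_cast hmax ⟨c, hc, rfl⟩
  tfae_have 1 → 2 := fun h => ⟨_, hdense, fun c hc _ => h c hc.1 hc.2⟩
  have T10 := T.out 1 0
  tfae_have 2 → 3 := by
    rintro ⟨Z, hZ, h⟩
    exact T10.1 ⟨Z, hZ, fun c hc hc0 => hq c hc0 (h c hc hc0)⟩
  tfae_have 3 → 1 := by
    intro h c hc hcD
    have := finite_apolar _ (terms_lin Ψ hΨ c)
    have := nontrivial_apolar hc
    rw [qOne_iff_rate, hcD]
    refine le_antisymm (h c hc) ?_
    rw [← hcD]
    exact finrank_le_rate _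
  tfae_have 3 ↔ 4 := T.out 0 2
  tfae_have 3 ↔ 5 := T.out 0 3
  tfae_finish

end

end Pool.Agent.Run7.h162.OS
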