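import Mathlib

/-!
# Polynomial families of vectors
-/

set_option autoImplicit false

namespace Pool.Agent.Run7.h162.OS

open MvPolynomial

section lin

variable {k V : Type} [Field k] [AddCommGroup V] [Module k V]

/-- Every set of vectors in a space of dimension at most `N` has a subset with at most `N` elements
and the same span. -/
theorem exists_small (X : Set V) (W : Submodule k V) [Module.Finite k W] (N : ℕ)
    (hN : Module.finrank k W ≤ N) (hX : X ⊆ W) :
    ∃ Y : Finset V, (Y : Set V) ⊆ X ∧ Y.card ≤ N ∧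
      Submodule.span k (Y : Set V) = Submodule.span k X := by
  classical
  obtain ⟨b, hbX, hspan, hli⟩ := exists_linearIndependent k X
  have hli' : LinearIndependent k (fun y : b => (⟨y.1, hX (hbX y.2)⟩ : W)) := by
    apply LinearIndependent.of_comp W.subtype
    exact hli
  have hfin : Finite b := hli'.finite_of_isNoetherian
  have := Fintype.ofFinite b
  refine ⟨b.toFinset, ?_, ?_, ?_⟩
  · rw [Set.coe_toFinset]
    exact hbX
  · rw [Set.toFinset_card]
    exact (LinearIndependent.fintype_card_le_finrank hli').trans hN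
  · rw [Set.coe_toFinset]
    exact hspan

variable {ι T : Type} [Fintype T]

/-- A polynomial family of vectors. -/
noncomputable def pfam (μ : T → (ι →₀ ℕ)) (v : T → V) (c : ι → k) : V :=
  ∑ τ, eval c (monomial (μ τ) (1 : k)) • v τ

theorem pfam_mem (μ : T → (ι →₀ ℕ)) (v : T → V) (c : ι → k) :
    pfam μ v c ∈ Submodule.span k (Set.range v) :=
  Submodule.sum_mem _ fun τ _ => Submodule.smul_mem _ _ (Submodule.subset_span ⟨τ, rfl⟩)

theorem dual_pfam (μ : T → (ι →₀ ℕ)) (v : T → V) (c : ι → k) (l : V →ₗ[k] k) :
    l (pfam μ v c) = eval c (∑ τ, monomial (μ τ) (l (v τ))) := by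
  unfold pfam
  rw [map_sum, map_sum]
  refine Finset.sum_congr rfl fun τ _ => ?_
  rw [map_smul, smul_eq_mul, eval_monomial, eval_monomial, one_mul, mul_comm]

/-- Vectors of the family at points of the Zariski closure of `Z`. -/
theorem pfam_mem_span (μ : T → (ι →₀ ℕ)) (v : T → V) (Z : Set (ι → k)) (c₀ : ι → k)
    (hcl : ∀ Q : MvPolynomial ι k, (∀ c ∈ Z, eval c Q = 0) → eval c₀ Q = 0) :
    pfam μ v c₀ ∈ Submodule.span k (pfam μ v '' Z) := by
  by_contra hcon
  obtain ⟨l, hl, hl0⟩ := Submodule.exists_le_ker_of_notMem hcon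
  apply hl
  rw [dual_pfam]
  apply hcl
  intro c hc
  rw [← dual_pfam]
  exact hl0 (Submodule.subset_span ⟨c, hc, rfl⟩)

/-- The coefficients of the family are combinations of its values on Zariski dense sets. -/
theorem coeff_mem_span (μ : T → (ι →₀ ℕ)) (hμ : Function.Injective μ) (v : T → V)
    (Z : Set (ι → k))
    (hcl : ∀ Q : MvPolynomial ι k, (∀ c ∈ Z, eval c Q = 0) → Q = 0) (τ : T) :
    v τ ∈ Submodule.span k (pfam μ v '' Z) := by
  classical
  by_contra hcon
  obtain ⟨l, hl, hl0⟩ := Submodule.exists_le_ker_of_notMem hcon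
  apply hl
  have h1 := hcl (∑ τ, monomial (μ τ) (l (v τ))) fun c hc => by
    rw [← dual_pfam]
    exact hl0 (Submodule.subset_span ⟨c, hc, rfl⟩)
  have h2 := congrArg (coeff (μ τ)) h1
  rw [coeff_zero, coeff_sum, Finset.sum_eq_single τ] at h2
  · rwa [coeff_monomial, if_pos rfl] at h2
  · intro τ' _ hτ'
    rw [coeff_monomial, if_neg fun h => hτ' (hμ h)]
  · intro h
    exact absurd (Finset.mem_univ _) h

end lin

section count

variable {ι : Type} [Fintype ι] [DecidableEq ι]

/-- The numbers of the occurrences of the letters in a word. -/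
def cnt {n : ℕ} (f : Fin n → ι) (i : ι) : Fin (n + 1) :=
  ⟨(Finset.univ.filter fun l => f l = i).card, by
    have h := Finset.card_filter_le (Finset.univ : Finset (Fin n)) (fun l => f l = i)
    rw [Finset.card_univ, Fintype.card_fin] at h
    omega⟩

omit [Fintype ι] in
theorem cnt_eq_iff {n : ℕ} (f w : Fin n → ι) :
    cnt f = cnt w ↔ ∃ π : Equiv.Perm (Fin n), f = w ∘ π := by
  constructor
  · intro h
    have hcard : ∀ i, Fintype.card {l // f l = i} = Fintype.card {l // w l = i} := by
      intro i
      rw [Fintype.card_subtype, Fintype.card_subtype]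
      exact congrArg Fin.val (congrFun h i)
    let π : Equiv.Perm (Fin n) := Equiv.ofFiberEquiv fun s => Fintype.equivOfCardEq (hcard s)
    refine ⟨π, ?_⟩
    funext l
    exact (Equiv.ofFiberEquiv_map (fun s => Fintype.equivOfCardEq (hcard s)) l).symm
  · rintro ⟨π, rfl⟩
    funext i
    apply Fin.ext
    change (Finset.univ.filter fun l => (w ∘ π) l = i).card = (Finset.univ.filter fun l => w l = i).card
    refine Finset.card_bij (fun l _ => π l) ?_ ?_ ?_
    · intro l hl
      simpa using hl
    · intro a _ b _ hab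
      exact π.injective hab
    · intro b hb
      refine ⟨π.symm b, ?_, by simp⟩
      simpa using hb

theorem prod_word {k : Type} [Field k] {n : ℕ} (c : ι → k) (f : Fin n → ι) :
    ∏ l, c (f l) = ∏ i, c i ^ (cnt f i : ℕ) := by
  rw [← Finset.prod_fiberwise Finset.univ f (fun l => c (f l))]
  refine Finset.prod_congr rfl fun i _ => ?_
  rw [Finset.prod_congr rfl (g := fun _ => c i) fun l hl => by rw [(Finset.mem_filter.1 hl).2],
    Finset.prod_const]
  rfl

end count

end Pool.Agent.Run7.h162.OS
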