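import Pool.Agent.Run7.h162.OS.Lin
import Pool.Agent.Run7.h162.OS.Alg
import Pool.Agent.TH711.AU.HomT

/-!
# Linear systems of forms and orbit sums
-/

set_option autoImplicit false
set_option linter.unusedSectionVars false

namespace Pool.Agent.Run7.h162.OS

open Pool.Agent.H826R3.SM Pool.Agent.TH671.DU Pool.Agent.N86.SQ
open MvPolynomial

variable {k : Type} [Field k] {σ ι : Type} [Fintype ι]

/-- The member of the linear system spanned by the functionals `Ψ i` with the coefficients `c`. -/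
noncomputable def lin (Ψ : ι → (MvPolynomial σ k →ₗ[k] k)) (c : ι → k) : MvPolynomial σ k →ₗ[k] k :=
  ∑ i, c i • Ψ i

/-- The product of functionals in disjoint sets of variables. -/
noncomputable def tens {n : ℕ} (Φ : Fin n → (MvPolynomial σ k →ₗ[k] k)) :
    MvPolynomial (Fin n × σ) k →ₗ[k] k :=
  functional (basisMonomials (Fin n × σ) k) fun t => ∏ l, Φ l (monomial (part t l) 1)

open Classical in
/-- The sum of the products `Ψ (f 0) ⊗ ⋯ ⊗ Ψ (f (n - 1))` in disjoint sets of variables over all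
rearrangements `f` of the word `w`. -/
noncomputable def orbitSum (Ψ : ι → (MvPolynomial σ k →ₗ[k] k)) {n : ℕ} (w : Fin n → ι) :
    MvPolynomial (Fin n × σ) k →ₗ[k] k :=
  ∑ f : Fin n → ι with ∃ π : Equiv.Perm (Fin n), f = w ∘ π, tens fun l => Ψ (f l)

theorem tens_monomial {n : ℕ} (Φ : Fin n → (MvPolynomial σ k →ₗ[k] k)) (t : Fin n × σ →₀ ℕ) :
    tens Φ (monomial t 1) = ∏ l, Φ l (monomial (part t l) 1) := by
  unfold tens functional
  have : (monomial t (1 : k)) = basisMonomials (Fin n × σ) k t := by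
    rw [coe_basisMonomials]
  rw [this, Module.Basis.constr_basis]

theorem fnl_ext {τ : Type} {Φ Φ' : MvPolynomial τ k →ₗ[k] k}
    (h : ∀ t, Φ (monomial t 1) = Φ' (monomial t 1)) : Φ = Φ' :=
  (basisMonomials τ k).ext fun t => by
    rw [coe_basisMonomials]
    exact h t

theorem fpow_lin (Ψ : ι → (MvPolynomial σ k →ₗ[k] k)) (c : ι → k) (n : ℕ) :
    fpow (lin Ψ c) n = ∑ f : Fin n → ι, (∏ l, c (f l)) • tens fun l => Ψ (f l) := by
  classical
  refine fnl_ext fun t => ?_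
  rw [fpow_monomial, LinearMap.sum_apply]
  have h1 : ∀ l, lin Ψ c (monomial (part t l) 1) = ∑ i, c i * Ψ i (monomial (part t l) 1) := by
    intro l
    unfold lin
    rw [LinearMap.sum_apply]
    rfl
  rw [Finset.prod_congr rfl fun l _ => h1 l, Finset.prod_univ_sum, Fintype.piFinset_univ]
  refine Finset.sum_congr rfl fun f _ => ?_
  rw [LinearMap.smul_apply, tens_monomial, Finset.prod_mul_distrib, smul_eq_mul]

variable [DecidableEq ι]

/-- the exponent of a type -/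
noncomputable def tyexp {n : ℕ} (τ : ι → Fin (n + 1)) : ι →₀ ℕ :=
  Finsupp.equivFunOnFinite.symm fun i => (τ i : ℕ)

theorem tyexp_injective {n : ℕ} : Function.Injective (tyexp : (ι → Fin (n + 1)) → (ι →₀ ℕ)) := by
  intro τ τ' h
  funext i
  apply Fin.ext
  exact congrArg (fun u : ι →₀ ℕ => u i) h

/-- the sum of the products over all words of a given type -/
noncomputable def tySum (Ψ : ι → (MvPolynomial σ k →ₗ[k] k)) {n : ℕ} (τ : ι → Fin (n + 1)) :
    MvPolynomial (Fin n × σ) k →ₗ[k] k :=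
  ∑ f : Fin n → ι with cnt f = τ, tens fun l => Ψ (f l)

theorem fpow_lin_pfam (Ψ : ι → (MvPolynomial σ k →ₗ[k] k)) (c : ι → k) (n : ℕ) :
    fpow (lin Ψ c) n = pfam tyexp (tySum Ψ (n := n)) c := by
  rw [fpow_lin]
  unfold pfam tySum
  rw [← Finset.sum_fiberwise Finset.univ (fun f : Fin n → ι => cnt f)]
  refine Finset.sum_congr rfl fun τ _ => ?_
  rw [Finset.smul_sum]
  refine Finset.sum_congr rfl fun f hf => ?_
  congr 1
  rw [prod_word, (Finset.mem_filter.1 hf).2, eval_monomial, one_mul,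
    Finsupp.prod_fintype _ _ fun i => pow_zero _]
  rfl

theorem orbitSum_eq (Ψ : ι → (MvPolynomial σ k →ₗ[k] k)) {n : ℕ} (w : Fin n → ι) :
    orbitSum Ψ w = tySum Ψ (cnt w) := by
  classical
  unfold orbitSum tySum
  refine Finset.sum_congr ?_ fun f _ => rfl
  ext f
  simp only [Finset.mem_filter, Finset.mem_univ, true_and, cnt_eq_iff]

theorem tySum_cases (Ψ : ι → (MvPolynomial σ k →ₗ[k] k)) {n : ℕ} (τ : ι → Fin (n + 1)) :
    tySum Ψ τ = 0 ∨ ∃ w : Fin n → ι, tySum Ψ τ = orbitSum Ψ w := by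
  classical
  by_cases h : ∃ w : Fin n → ι, cnt w = τ
  · obtain ⟨w, rfl⟩ := h
    exact Or.inr ⟨w, (orbitSum_eq Ψ w).symm⟩
  · refine Or.inl ?_
    unfold tySum
    rw [Finset.filter_eq_empty_iff.2, Finset.sum_empty]
    intro f _ hf
    exact h ⟨f, hf⟩

/-! ### finiteness -/

theorem terms_lin (Ψ : ι → (MvPolynomial σ k →ₗ[k] k)) (hΨ : ∀ i, (terms (Ψ i)).Finite)
    (c : ι → k) : (terms (lin Ψ c)).Finite := by
  refine (Set.finite_iUnion hΨ).subset fun u hu => ?_
  rw [Set.mem_iUnion]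
  by_contra hcon
  push Not at hcon
  apply hu
  unfold lin
  rw [LinearMap.sum_apply]
  refine Finset.sum_eq_zero fun i _ => ?_
  have h1 : Ψ i (monomial u 1) = 0 := by
    by_contra h
    exact hcon i h
  rw [LinearMap.smul_apply, h1, smul_zero]

theorem terms_orbitSum (Ψ : ι → (MvPolynomial σ k →ₗ[k] k)) (hΨ : ∀ i, (terms (Ψ i)).Finite)
    {n : ℕ} (w : Fin n → ι) : (terms (orbitSum Ψ w)).Finite := by
  classical
  have h1 : (⋃ i, terms (Ψ i)).Finite := Set.finite_iUnion hΨ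
  have h2 : {g : Fin n → (σ →₀ ℕ) | ∀ l, g l ∈ ⋃ i, terms (Ψ i)}.Finite :=
    Set.Finite.pi' fun _ => h1
  have hinj : Function.Injective (fun (t : Fin n × σ →₀ ℕ) (l : Fin n) => part t l) := by
    intro t t' h
    rw [← sum_mapDomain_part t, ← sum_mapDomain_part t']
    refine Finset.sum_congr rfl fun l _ => ?_
    have h3 : part t l = part t' l := congrFun h l
    rw [h3]
  refine (Set.Finite.preimage hinj.injOn h2).subset fun t ht => ?_
  rw [Set.mem_preimage]
  intro l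
  by_contra hcon
  rw [Set.mem_iUnion] at hcon
  push Not at hcon
  apply ht
  unfold orbitSum
  rw [LinearMap.sum_apply]
  refine Finset.sum_eq_zero fun f _ => ?_
  rw [tens_monomial]
  refine Finset.prod_eq_zero (Finset.mem_univ l) ?_
  by_contra h
  exact hcon (f l) h

theorem fpow_ne_zero {Φ : MvPolynomial σ k →ₗ[k] k} (hΦ : Φ ≠ 0) (n : ℕ) : fpow Φ n ≠ 0 := by
  classical
  obtain ⟨u, hu⟩ : ∃ u, Φ (monomial u 1) ≠ 0 := by
    by_contra h
    push Not at h
    exact hΦ (fnl_ext fun t => by rw [h t]; rfl)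
  intro h
  have h1 := congrArg (fun f => f (monomial (∑ l : Fin n, u.mapDomain (Prod.mk l)) (1 : k))) h
  simp only [fpow_monomial, LinearMap.zero_apply] at h1
  rw [Finset.prod_eq_zero_iff] at h1
  obtain ⟨l, -, hl⟩ := h1
  rw [part_sum (fun _ => u) l] at hl
  exact hu hl

theorem fpow_zero' {n : ℕ} (hn : 1 ≤ n) : fpow (0 : MvPolynomial σ k →ₗ[k] k) n = 0 := by
  refine fnl_ext fun t => ?_
  rw [fpow_monomial, LinearMap.zero_apply]
  exact Finset.prod_eq_zero (Finset.mem_univ (⟨0, hn⟩ : Fin n)) rfl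

/-! ### the inequalities -/

theorem card_types (n : ℕ) : Fintype.card (ι → Fin (n + 1)) = (n + 1) ^ Fintype.card ι := by
  classical
  rw [Fintype.card_fun, Fintype.card_fin]

section main

variable [IsAlgClosed k] [Finite σ] (Ψ : ι → (MvPolynomial σ k →ₗ[k] k))
  (hΨ : ∀ i, (terms (Ψ i)).Finite)

include hΨ

/-- from orbit sums to the members of the system -/
theorem rate_lin_le {n : ℕ} {x : ℝ} (hx : 0 ≤ x)
    (h : ∀ w : Fin n → ι, orbitSum Ψ w ≠ 0 → rate k (ApolarAlg (orbitSum Ψ w)) ≤ x)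
    (c : ι → k) (hc : lin Ψ c ≠ 0) :
    rate k (ApolarAlg (lin Ψ c)) ^ n ≤ (n + 1) ^ Fintype.card ι * x := by
  classical
  have hfin := finite_apolar _ (terms_lin Ψ hΨ c)
  rw [← rate_fpow (lin Ψ c) hc n]
  have h1 := rate_le_of_mem_span (Finset.univ.image (tySum Ψ (n := n))) x hx (fun Θ hΘ hΘ0 => by
    obtain ⟨τ, -, rfl⟩ := Finset.mem_image.1 hΘ
    rcases tySum_cases Ψ τ with h0 | ⟨w, hw⟩
    · exact absurd h0 hΘ0
    · rw [hw] at hΘ0 ⊢
      exact ⟨finite_apolar _ (terms_orbitSum Ψ hΨ w), h w hΘ0⟩) (fpow (lin Ψ c) n)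
    (fpow_ne_zero hc n) (by
      rw [fpow_lin_pfam, Finset.coe_image, Finset.coe_univ, Set.image_univ]
      exact pfam_mem _ _ _)
  refine h1.trans (mul_le_mul_of_nonneg_right ?_ hx)
  have h2 : (Finset.univ.image (tySum Ψ (n := n))).card ≤ (n + 1) ^ Fintype.card ι := by
    rw [← card_types]
    exact Finset.card_image_le
  exact_mod_cast h2

/-- members of the span of the powers of the members of the system in a set `Z` -/
theorem rate_le_of_mem_span_image {n : ℕ} (hn : 1 ≤ n) {x : ℝ} (hx : 0 ≤ x) (Z : Set (ι → k))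
    (h : ∀ c ∈ Z, lin Ψ c ≠ 0 → rate k (ApolarAlg (lin Ψ c)) ^ n ≤ x)
    (Θ : MvPolynomial (Fin n × σ) k →ₗ[k] k) (hΘ : Θ ≠ 0)
    (hmem : Θ ∈ Submodule.span k ((fun c => fpow (lin Ψ c) n) '' Z)) :
    rate k (ApolarAlg Θ) ≤ (n + 1) ^ Fintype.card ι * x := by
  classical
  let W := Submodule.span k (Set.range (tySum Ψ (n := n)))
  have hW : Module.Finite k W := FiniteDimensional.span_of_finite k (Set.finite_range _)
  obtain ⟨Y, hYX, hYc, hYs⟩ := exists_small ((fun c => fpow (lin Ψ c) n) '' Z) W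
    ((n + 1) ^ Fintype.card ι) (by
      rw [← card_types]
      exact finrank_range_le_card _) (by
      rintro _ ⟨c, -, rfl⟩
      change fpow (lin Ψ c) n ∈ W
      rw [fpow_lin_pfam]
      exact pfam_mem _ _ _)
  rw [← hYs] at hmem
  refine (rate_le_of_mem_span Y x hx (fun Φ hΦ hΦ0 => ?_) Θ hΘ hmem).trans ?_
  · obtain ⟨c, hc, rfl⟩ := hYX hΦ
    have hfin := finite_apolar _ (terms_lin Ψ hΨ c)
    have hc0 : lin Ψ c ≠ 0 := by
      intro h0
      apply hΦ0
      change fpow (lin Ψ c) n = 0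
      rw [h0]
      exact fpow_zero' hn
    refine ⟨finite_fpow (lin Ψ c) n, ?_⟩
    change rate k (ApolarAlg (fpow (lin Ψ c) n)) ≤ x
    rw [rate_fpow (lin Ψ c) hc0]
    exact h c hc hc0
  · refine mul_le_mul_of_nonneg_right ?_ hx
    exact_mod_cast hYc

/-- from the members of the system to the orbit sums -/
theorem rate_orbitSum_le {n : ℕ} (hn : 1 ≤ n) {x : ℝ} (hx : 0 ≤ x) (Z : Set (ι → k))
    (hZ : ∀ Q : MvPolynomial ι k, (∀ c ∈ Z, eval c Q = 0) → Q = 0)
    (h : ∀ c ∈ Z, lin Ψ c ≠ 0 → rate k (ApolarAlg (lin Ψ c)) ^ n ≤ x)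
    (w : Fin n → ι) (hw : orbitSum Ψ w ≠ 0) :
    rate k (ApolarAlg (orbitSum Ψ w)) ≤ (n + 1) ^ Fintype.card ι * x := by
  classical
  refine rate_le_of_mem_span_image Ψ hΨ hn hx Z h _ hw ?_
  rw [orbitSum_eq]
  have h1 := coeff_mem_span tyexp tyexp_injective (tySum Ψ (n := n)) Z hZ (cnt w)
  have h2 : (fun c => fpow (lin Ψ c) n) = pfam tyexp (tySum Ψ (n := n)) := by
    funext c
    exact fpow_lin_pfam Ψ c n
  rw [h2]
  exact h1

/-- **Zariski closedness.** -/
theorem rate_closure {ρ : ℝ} (hρ : 0 < ρ) (Z : Set (ι → k)) (c₀ : ι → k)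
    (hcl : ∀ Q : MvPolynomial ι k, (∀ c ∈ Z, eval c Q = 0) → eval c₀ Q = 0)
    (h : ∀ c ∈ Z, lin Ψ c ≠ 0 → rate k (ApolarAlg (lin Ψ c)) ≤ ρ) (h0 : lin Ψ c₀ ≠ 0) :
    rate k (ApolarAlg (lin Ψ c₀)) ≤ ρ := by
  classical
  have hfin := finite_apolar _ (terms_lin Ψ hΨ c₀)
  have hnt := nontrivial_apolar h0
  refine Pool.Agent.TH711.AU.le_of_pow_le_poly (Fintype.card ι) hρ fun N₀ =>
    ⟨N₀ + 1, by omega, ?_⟩
  obtain ⟨n, hn, hnN⟩ : ∃ n : ℕ, 1 ≤ n ∧ N₀ + 1 = n := ⟨N₀ + 1, by omega, rfl⟩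
  rw [hnN, ← rate_fpow (lin Ψ c₀) h0 n]
  refine rate_le_of_mem_span_image Ψ hΨ hn (pow_nonneg hρ.le n) Z (fun c hc hc0 => ?_) _
    (fpow_ne_zero h0 n) ?_
  · have hfin' := finite_apolar _ (terms_lin Ψ hΨ c)
    have hnt' := nontrivial_apolar hc0
    have := one_le_rate (k := k) (ApolarAlg (lin Ψ c))
    exact pow_le_pow_left₀ (by linarith) (h c hc hc0) n
  · have h1 := pfam_mem_span tyexp (tySum Ψ (n := n)) Z c₀ hcl
    have h2 : (fun c => fpow (lin Ψ c) n) = pfam tyexp (tySum Ψ (n := n)) := by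
      funext c
      exact fpow_lin_pfam Ψ c n
    rw [fpow_lin_pfam, h2]
    exact h1

end main

end Pool.Agent.Run7.h162.OS
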